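import Pool.Agent.R790.Mm.Box

/-! Compactness of the set of mm-spaces which are measures on a cube, in the box topology. -/

set_option autoImplicit false

namespace Pool.Agent.R735.Pyr

open MeasureTheory Set Topology Filter Pool.Agent.R790.Mm

/-! ### finite laws -/

/-- coupling of two laws on a finite set with a large diagonal -/
theorem finite_coupling {M : ℕ} (p q : Fin M → ℝ) (hp : ∀ i, 0 ≤ p i) (hp1 : ∑ i, p i = 1)
    (hq1 : ∑ i, q i = 1) {τ : ℝ} (hτ : 0 ≤ τ) (hτ1 : τ ≤ 1) (h : ∀ i, (1 - τ) * p i ≤ q i) :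
    ∃ c : Fin M × Fin M → ℝ, (∀ x, 0 ≤ c x) ∧ (∀ i, ∑ j, c (i, j) = p i) ∧
      (∀ j, ∑ i, c (i, j) = q j) ∧ 1 - τ ≤ ∑ i, c (i, i) := by
  classical
  refine ⟨fun x => (if x.1 = x.2 then (1 - τ) * p x.1 else 0) + p x.1 * (q x.2 - (1 - τ) * p x.2),
    ?_, ?_, ?_, ?_⟩
  · rintro ⟨i, j⟩
    have h1 := h j
    have h2 := hp i
    have h3 : 0 ≤ p i * (q j - (1 - τ) * p j) := mul_nonneg h2 (by linarith)
    dsimp only
    split_ifs with hij
    · have : 0 ≤ (1 - τ) * p i := mul_nonneg (by linarith) h2
      linarith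
    · linarith
  · intro i
    dsimp only
    rw [Finset.sum_add_distrib, ← Finset.mul_sum, Finset.sum_sub_distrib, ← Finset.mul_sum, hp1,
      hq1, Finset.sum_ite_eq]
    simp
    ring
  · intro j
    dsimp only
    rw [Finset.sum_add_distrib, ← Finset.sum_mul, hp1, Finset.sum_ite_eq']
    simp
  · dsimp only
    simp only [if_true]
    rw [Finset.sum_add_distrib, ← Finset.mul_sum, hp1]
    have : 0 ≤ ∑ i, p i * (q i - (1 - τ) * p i) :=
      Finset.sum_nonneg fun i _ => mul_nonneg (hp i) (by linarith [h i])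
    linarith

/-- the measure on a finite type with the given weights -/
noncomputable def wts {α : Type} [Fintype α] [MeasurableSpace α] (c : α → ℝ) : Measure α :=
  ∑ x, ENNReal.ofReal (c x) • Measure.dirac x

theorem wts_apply {α : Type} [Fintype α] [MeasurableSpace α] [MeasurableSingletonClass α]
    {c : α → ℝ} (hc : ∀ x, 0 ≤ c x) (s : Set α) [DecidablePred (· ∈ s)] :
    wts c s = ENNReal.ofReal (∑ x ∈ Finset.univ.filter (· ∈ s), c x) := by
  unfold wts
  rw [Measure.finsetSum_apply, ENNReal.ofReal_sum_of_nonneg fun x _ => hc x, Finset.sum_filter]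
  refine Finset.sum_congr rfl fun x _ => ?_
  rw [Measure.smul_apply, Measure.dirac_apply' _ (Set.toFinite s).measurableSet, smul_eq_mul]
  by_cases h : x ∈ s
  · simp [h]
  · simp [h]

/-- two laws on a finite set, one of which is at least `1 - τ` times the other, have
representations on the interval which agree on a set of measure at least `1 - τ` -/
theorem finite_rep {M : ℕ} (l l' : Measure (Fin M)) [IsProbabilityMeasure l]
    [IsProbabilityMeasure l'] {τ : ℝ} (hτ : 0 ≤ τ) (hτ1 : τ ≤ 1)
    (h : ∀ i, (1 - τ) * l.real {i} ≤ l'.real {i}) :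
    ∃ α β : II → Fin M, Measurable α ∧ Measurable β ∧ leb.map α = l ∧ leb.map β = l' ∧
      1 - τ ≤ leb.real {s | α s = β s} := by
  classical
  have hs : ∀ (m : Measure (Fin M)) [IsProbabilityMeasure m], ∑ i, m.real {i} = 1 := by
    intro m _
    have h1 := sum_measureReal_singleton (μ := m) (Finset.univ : Finset (Fin M))
    rw [h1]
    simp
  obtain ⟨c, c0, c1, c2, c3⟩ := finite_coupling (fun i => l.real {i}) (fun i => l'.real {i})
    (fun _ => measureReal_nonneg) (hs l) (hs l') hτ hτ1 h
  have htot : ∑ x, c x = 1 := by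
    rw [Fintype.sum_prod_type]
    simp only [c1]
    exact hs l
  have hprob : IsProbabilityMeasure (wts c) := by
    constructor
    rw [wts_apply c0]
    simp [htot]
  have hne : Nonempty (Fin M × Fin M) := by
    by_contra hcon
    rw [not_nonempty_iff] at hcon
    rw [Finset.univ_eq_empty, Finset.sum_empty] at htot
    norm_num at htot
  obtain ⟨f, hf, hf'⟩ := exists_rep (wts c)
  refine ⟨fun s => (f s).1, fun s => (f s).2, measurable_fst.comp hf, measurable_snd.comp hf,
    ?_, ?_, ?_⟩
  · have : leb.map (fun s => (f s).1) = (leb.map f).map Prod.fst := by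
      rw [Measure.map_map measurable_fst hf]; rfl
    rw [this, hf']
    refine Measure.ext_of_singleton fun i => ?_
    rw [Measure.map_apply measurable_fst (measurableSet_singleton i), wts_apply c0,
      ← ofReal_measureReal, ← c1 i]
    congr 1
    rw [Finset.sum_filter, Fintype.sum_prod_type]
    simp only [mem_preimage, mem_singleton_iff]
    rw [Finset.sum_eq_single i]
    · simp
    · intro j _ hj
      simp [hj]
    · simp
  · have : leb.map (fun s => (f s).2) = (leb.map f).map Prod.snd := by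
      rw [Measure.map_map measurable_snd hf]; rfl
    rw [this, hf']
    refine Measure.ext_of_singleton fun i => ?_
    rw [Measure.map_apply measurable_snd (measurableSet_singleton i), wts_apply c0,
      ← ofReal_measureReal, ← c2 i]
    congr 1
    rw [Finset.sum_filter, Fintype.sum_prod_type_right]
    simp only [mem_preimage, mem_singleton_iff]
    rw [Finset.sum_eq_single i]
    · simp
    · intro j _ hj
      simp [hj]
    · simp
  · have h1 : leb.real {s | (f s).1 = (f s).2} = (wts c).real {x | x.1 = x.2} := by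
      rw [← hf', map_measureReal_apply hf (Set.toFinite _).measurableSet]
      rfl
    rw [h1, Measure.real, wts_apply c0, ENNReal.toReal_ofReal (Finset.sum_nonneg fun x _ => c0 x)]
    rw [Finset.sum_filter, Fintype.sum_prod_type]
    simp only [mem_ofPred_eq, Finset.sum_ite_eq, Finset.mem_univ, if_true]
    exact c3

/-- the same for the labels of two laws on a standard Borel space -/
theorem label_rep {Y : Type} [MeasurableSpace Y] [StandardBorelSpace Y] [Nonempty Y] {M : ℕ}
    (D : Y → Fin M) (hD : Measurable D) (ν ν' : Measure Y) [IsProbabilityMeasure ν]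
    [IsProbabilityMeasure ν'] {τ : ℝ} (hτ : 0 ≤ τ) (hτ1 : τ ≤ 1)
    (h : ∀ i, (1 - τ) * ν.real (D ⁻¹' {i}) ≤ ν'.real (D ⁻¹' {i})) :
    ∃ φ ψ : II → Y, Measurable φ ∧ Measurable ψ ∧ leb.map φ = ν ∧ leb.map ψ = ν' ∧
      1 - τ ≤ leb.real {s | D (φ s) = D (ψ s)} := by
  have : IsProbabilityMeasure (ν.map D) := Measure.isProbabilityMeasure_map hD.aemeasurable
  have : IsProbabilityMeasure (ν'.map D) := Measure.isProbabilityMeasure_map hD.aemeasurable
  obtain ⟨α, β, hα, hβ, hα', hβ', hαβ⟩ := finite_rep (ν.map D) (ν'.map D) hτ hτ1 fun i => by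
    rw [map_measureReal_apply hD (measurableSet_singleton i),
      map_measureReal_apply hD (measurableSet_singleton i)]
    exact h i
  obtain ⟨φ, hφ, hφ'⟩ := exists_rep ν
  obtain ⟨ψ, hψ, hψ'⟩ := exists_rep ν'
  obtain ⟨a, b, ha, hb, ha', hb', hab⟩ := glue (hD.comp hφ) hα (by
    rw [← Measure.map_map hD hφ, hφ', hα'])
  obtain ⟨a₁, b₁, ha₁, hb₁, ha₁', hb₁', hab₁⟩ := glue (hD.comp hψ) hβ (by
    rw [← Measure.map_map hD hψ, hψ', hβ'])
  obtain ⟨x, y, hx, hy, hx', hy', hxy⟩ := glue hb hb₁ (hb'.trans hb₁'.symm)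
  refine ⟨φ ∘ a ∘ x, ψ ∘ a₁ ∘ y, hφ.comp (ha.comp hx), hψ.comp (ha₁.comp hy), ?_, ?_, ?_⟩
  · rw [← Measure.map_map hφ (ha.comp hx), ← Measure.map_map ha hx, hx', ha', hφ']
  · rw [← Measure.map_map hψ (ha₁.comp hy), ← Measure.map_map ha₁ hy, hy', ha₁', hψ']
  · have h1 : ∀ᵐ s ∂leb, D (φ (a (x s))) = α (b (x s)) := by
      have h2 : ∀ᵐ s ∂(leb.map x), (D ∘ φ) (a s) = α (b s) := by rw [hx']; exact hab
      exact ae_of_ae_map hx.aemeasurable h2
    have h3 : ∀ᵐ s ∂leb, D (ψ (a₁ (y s))) = β (b₁ (y s)) := by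
      have h2 : ∀ᵐ s ∂(leb.map y), (D ∘ ψ) (a₁ s) = β (b₁ s) := by rw [hy']; exact hab₁
      exact ae_of_ae_map hy.aemeasurable h2
    have h4 : leb.real {s | D ((φ ∘ a ∘ x) s) = D ((ψ ∘ a₁ ∘ y) s)}
        = leb.real ((b ∘ x) ⁻¹' {s | α s = β s}) := by
      apply measureReal_congr
      filter_upwards [h1, h3, hxy] with s e1 e2 e3
      apply propext
      show D (φ (a (x s))) = D (ψ (a₁ (y s))) ↔ α (b (x s)) = β (b (x s))
      rw [e1, e2, ← e3]
    have h5 : leb.map (b ∘ x) = leb := by
      rw [← Measure.map_map hb hx, hx', hb']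
    rw [h4, map_real (hb.comp hx) h5 (measurableSet_eq_fun hα hβ)]
    exact hαβ

/-! ### continuity of the class of a measure -/

/-- a compact metric space with a probability measure as an mm-space -/
noncomputable def ofMeas (Y : Type) [MetricSpace Y] [CompactSpace Y] [MeasurableSpace Y]
    [BorelSpace Y] (ν : ProbabilityMeasure Y) : MM where
  X := Y
  μ := (ν : Measure Y)

theorem nf_inter {Y : Type} [TopologicalSpace Y] [MeasurableSpace Y] (ν : Measure Y) {s t : Set Y}
    (hs : ν (frontier s) = 0) (ht : ν (frontier t) = 0) : ν (frontier (s ∩ t)) = 0 := by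
  refine measure_mono_null (frontier_inter_subset s t) ?_
  refine measure_union_null ?_ ?_
  · exact measure_mono_null inter_subset_left hs
  · exact measure_mono_null inter_subset_right ht

theorem nf_biInter {Y ι : Type} [TopologicalSpace Y] [MeasurableSpace Y] (ν : Measure Y)
    (F : Finset ι) (B : ι → Set Y) (h : ∀ i ∈ F, ν (frontier (B i)) = 0) :
    ν (frontier (⋂ i ∈ F, B i)) = 0 := by
  classical
  induction F using Finset.induction_on with
  | empty => simp
  | insert a F ha ih =>
    rw [Finset.set_biInter_insert]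
    exact nf_inter ν (h a (Finset.mem_insert_self _ _)) (ih fun i hi =>
      h i (Finset.mem_insert_of_mem hi))

/-- a finite measurable labelling with null frontiers and small fibres -/
theorem exists_label {Y : Type} [MetricSpace Y] [CompactSpace Y] [MeasurableSpace Y]
    [BorelSpace Y] [Nonempty Y] (ν : ProbabilityMeasure Y) {ε : ℝ} (hε : 0 < ε) :
    ∃ (M : ℕ) (D : Y → Fin M), Measurable D ∧ (∀ x y, D x = D y → dist x y ≤ ε) ∧
      ∀ i, (ν : Measure Y) (frontier (D ⁻¹' {i})) = 0 := by
  classical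
  choose r hr hr0 using fun x : Y =>
    exists_null_frontier_thickening (ν : Measure Y) {x} (a := ε / 4) (b := ε / 2) (by linarith)
  obtain ⟨F, -, hF⟩ := isCompact_univ.elim_nhds_subcover (fun x : Y => Metric.ball x (r x))
    fun x _ => Metric.ball_mem_nhds _ (by have := (hr x).1; linarith)
  let M := F.card
  let e : F ≃ Fin M := F.equivFin
  let B : Fin M → Set Y := fun k => Metric.ball ((e.symm k : F) : Y) (r (e.symm k : F))
  have hB : ∀ x, ∃ k, x ∈ B k := by
    intro x
    have := hF (mem_univ x)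
    simp only [mem_iUnion] at this
    obtain ⟨y, hy, hxy⟩ := this
    refine ⟨e ⟨y, hy⟩, ?_⟩
    show x ∈ Metric.ball _ _
    rw [Equiv.symm_apply_apply]
    exact hxy
  have hne : ∀ x, (Finset.univ.filter fun k => x ∈ B k).Nonempty := fun x => by
    obtain ⟨k, hk⟩ := hB x
    exact ⟨k, by simpa using hk⟩
  let D : Y → Fin M := fun x => (Finset.univ.filter fun k => x ∈ B k).min' (hne x)
  have hDmem : ∀ x, x ∈ B (D x) := fun x => by
    have := Finset.min'_mem _ (hne x)
    simpa using this
  have hDlt : ∀ x k, k < D x → x ∉ B k := by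
    intro x k hk hx
    exact absurd (Finset.min'_le (Finset.univ.filter fun k => x ∈ B k) k (by simpa using hx))
      (not_le.2 hk)
  have hpre : ∀ k, D ⁻¹' {k} = B k ∩ ⋂ j ∈ Finset.univ.filter (· < k), (B j)ᶜ := by
    intro k
    ext x
    simp only [mem_preimage, mem_singleton_iff, mem_inter_iff, mem_iInter, Finset.mem_filter,
      Finset.mem_univ, true_and, mem_compl_iff]
    constructor
    · rintro rfl
      exact ⟨hDmem x, fun j hj => hDlt x j hj⟩
    · rintro ⟨h1, h2⟩
      rcases lt_trichotomy (D x) k with h | h | h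
      · exact absurd (hDmem x) (h2 _ h)
      · exact h
      · exact absurd h1 (hDlt x k h)
  have hnull : ∀ k, (ν : Measure Y) (frontier (B k)) = 0 := by
    intro k
    have := hr0 ((e.symm k : F) : Y)
    rwa [Metric.thickening_singleton] at this
  refine ⟨M, D, ?_, ?_, ?_⟩
  · refine measurable_to_countable' fun k => ?_
    rw [hpre k]
    refine Metric.isOpen_ball.measurableSet.inter (Finset.measurableSet_biInter _ fun j _ =>
      Metric.isOpen_ball.measurableSet.compl)
  · intro x y hxy
    have h1 := Metric.mem_ball.1 (hDmem x)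
    have h2 := Metric.mem_ball.1 (hDmem y)
    rw [← hxy] at h2
    have h3 := (hr ((e.symm (D x) : F) : Y)).2
    have h4 := dist_triangle_right x y ((e.symm (D x) : F) : Y)
    linarith
  · intro k
    rw [hpre k]
    refine nf_inter _ (hnull k) (nf_biInter _ _ _ fun j _ => ?_)
    rw [frontier_compl]
    exact hnull j

/-- a neighbourhood of `ν` is close to `ν` in the box distance -/
theorem box_near {Y : Type} [MetricSpace Y] [CompactSpace Y] [MeasurableSpace Y]
    [BorelSpace Y] (ν : ProbabilityMeasure Y) {ε : ℝ} (hε : 0 < ε) :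
    ∀ᶠ ν' in 𝓝 ν, box (ofMeas Y ν) (ofMeas Y ν') ≤ ε := by
  have hY : Nonempty Y := by
    by_contra h
    rw [not_nonempty_iff] at h
    have := (inferInstance : IsProbabilityMeasure (ν : Measure Y)).measure_univ
    simp [univ_eq_empty_iff.2 h] at this
  wlog hε1 : ε ≤ 1 generalizing ε
  · exact (this one_pos le_rfl).mono fun ν' h => h.trans (not_le.1 hε1).le
  obtain ⟨M, D, hD, hDd, hD0⟩ := exists_label ν (ε := ε / 2) (by linarith)
  have hev : ∀ i, ∀ᶠ ν' : ProbabilityMeasure Y in 𝓝 ν,
      (1 - ε) * (ν : Measure Y).real (D ⁻¹' {i}) ≤ (ν' : Measure Y).real (D ⁻¹' {i}) := by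
    intro i
    rcases eq_or_lt_of_le (measureReal_nonneg (μ := (ν : Measure Y)) (s := D ⁻¹' {i})) with h | h
    · refine Eventually.of_forall fun ν' => ?_
      rw [← h, mul_zero]
      exact measureReal_nonneg
    · have h1 := ProbabilityMeasure.tendsto_measure_of_null_frontier_of_tendsto'
        (μs := fun ν' : ProbabilityMeasure Y => ν') (L := 𝓝 ν) (μ := ν) tendsto_id (hD0 i)
      have h2 : Tendsto (fun ν' : ProbabilityMeasure Y => (ν' : Measure Y).real (D ⁻¹' {i})) (𝓝 ν)
          (𝓝 ((ν : Measure Y).real (D ⁻¹' {i}))) :=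
        (ENNReal.tendsto_toReal (measure_ne_top _ _)).comp h1
      refine (h2.eventually (lt_mem_nhds (b := (ν : Measure Y).real (D ⁻¹' {i}))
        (a := (1 - ε) * (ν : Measure Y).real (D ⁻¹' {i})) ?_)).mono fun ν' h => h.le
      nlinarith
  filter_upwards [eventually_all.2 hev] with ν' h
  have : StandardBorelSpace Y := inferInstance
  obtain ⟨φ, ψ, hφ, hψ, hφ', hψ', hI⟩ := label_rep D hD (ν : Measure Y) (ν' : Measure Y) hε.le hε1 h
  refine box_le ⟨hε.le, φ, ψ, {s | D (φ s) = D (ψ s)}, ⟨hφ, hφ'⟩, ⟨hψ, hψ'⟩,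
    measurableSet_eq_fun (hD.comp hφ) (hD.comp hψ), leb_real_iff.2 hI, fun s hs t ht => ?_⟩
  have h1 : dist (φ s) (ψ s) ≤ ε / 2 := hDd _ _ hs
  have h2 : dist (φ t) (ψ t) ≤ ε / 2 := hDd _ _ ht
  have h3 := dist_triangle4 (φ s) (ψ s) (ψ t) (φ t)
  have h4 := dist_triangle4 (ψ s) (φ s) (φ t) (ψ t)
  rw [dist_comm (ψ t) (φ t)] at h3
  rw [dist_comm (ψ s) (φ s)] at h4
  show |dist (φ s) (φ t) - dist (ψ s) (ψ t)| ≤ ε
  rw [abs_le]
  constructor <;> linarith

/-- the class of an mm-space -/
def cls (A : MM) : XX := Quotient.mk mmSetoid A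

/-- the measures on a compact metric space form a compact set in the box topology -/
theorem isCompact_ofMeas (Y : Type) [MetricSpace Y] [CompactSpace Y] [MeasurableSpace Y]
    [BorelSpace Y] : @IsCompact XX boxPM.toUniformSpace.toTopologicalSpace
      (range fun ν : ProbabilityMeasure Y => cls (ofMeas Y ν)) := by
  letI : PseudoMetricSpace XX := boxPM
  have hc : Continuous fun ν : ProbabilityMeasure Y => cls (ofMeas Y ν) := by
    refine continuous_iff_continuousAt.2 fun ν => ?_
    refine Metric.tendsto_nhds.2 fun ε hε => ?_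
    filter_upwards [box_near ν (half_pos hε)] with ν' h
    show box (ofMeas Y ν') (ofMeas Y ν) < ε
    rw [box_comm]
    linarith
  exact isCompact_range hc

end Pool.Agent.R735.Pyr
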