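import Pool.Agent.R735.Pyr.Dom

/-! Pyramids, the weak topology, the Fell topology and the Wijsman topology. -/

set_option autoImplicit false

namespace Pool.Agent.R735.Pyr

open MeasureTheory Set Topology Filter Pool.Agent.R790.Mm

/-- The box distance on the set `XX` of mm-isomorphism classes of mm-spaces. -/
noncomputable instance instXX : PseudoMetricSpace XX := boxPM

/-- The Lipschitz order `x ≺ y` on classes of mm-spaces: some (equivalently any) representatives
`A` of `x` and `B` of `y` satisfy `A ≺ B`. -/
def DomX (x y : XX) : Prop := ∃ A B : MM, cls A = x ∧ cls B = y ∧ Dom A B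

/-- Pyramids: nonempty closed sets, downward closed and directed for the Lipschitz order. -/
structure IsPyramid (P : Set XX) : Prop where
  nonempty : P.Nonempty
  closed : IsClosed P
  down : ∀ x y, DomX x y → y ∈ P → x ∈ P
  directed : ∀ x ∈ P, ∀ y ∈ P, ∃ z ∈ P, DomX x z ∧ DomX y z

/-- The set `Π` of pyramids. -/
def Pyr : Type 1 := {P : Set XX // IsPyramid P}

/-- The closed subsets of `(XX, □)`. -/
def ClosedSets : Type 1 := {F : Set XX // IsClosed F}

/-- The inclusion of the set of pyramids into the set of closed sets. -/
def incl (P : Pyr) : ClosedSets := ⟨P.1, P.2.closed⟩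

/-- `□(x, F) = inf_{y ∈ F} □(x, y)`, which is `∞` for the empty set. -/
noncomputable def boxTo (x : XX) (F : Set XX) : ENNReal := ⨅ y ∈ F, ENNReal.ofReal (boxD x y)

/-- Weak convergence of pyramids. -/
def WeakConv (P : ℕ → Pyr) (Q : Pyr) : Prop :=
  (∀ x ∈ Q.1, Tendsto (fun n => boxTo x (P n).1) atTop (𝓝 0)) ∧
  (∀ x ∉ Q.1, 0 < liminf (fun n => boxTo x (P n).1) atTop)

/-- `t` is the weak topology: the compact metrizable topology on the set of pyramids whose
convergent sequences are exactly the weakly convergent ones. -/
structure IsWeakTopology (t : TopologicalSpace Pyr) : Prop where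
  compact : @CompactSpace Pyr t
  metrizable : @TopologicalSpace.MetrizableSpace Pyr t
  conv : ∀ (P : ℕ → Pyr) (Q : Pyr), Tendsto P atTop (@nhds Pyr t Q) ↔ WeakConv P Q

/-- The Fell topology on the set of closed subsets. -/
@[instance_reducible] def fell : TopologicalSpace ClosedSets :=
  TopologicalSpace.generateFrom
    ({S | ∃ U : Set XX, IsOpen U ∧ S = {F : ClosedSets | (F.1 ∩ U).Nonempty}} ∪
     {S | ∃ K : Set XX, IsCompact K ∧ S = {F : ClosedSets | F.1 ∩ K = ∅}})

/-- The Wijsman topology on the set of closed subsets: the weakest topology such that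
`F ↦ □(x, F)` is continuous for every `x`. -/
@[instance_reducible] noncomputable def wijsman : TopologicalSpace ClosedSets :=
  ⨅ x : XX, TopologicalSpace.induced (fun F : ClosedSets => boxTo x F.1) inferInstance

end Pool.Agent.R735.Pyr
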