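import Pool.Agent.R735.Pyr.Cube

/-! The Lipschitz order, and the reduction of an mm-space to a cube of bounded dimension. -/

set_option autoImplicit false

namespace Pool.Agent.R735.Pyr

open MeasureTheory Set Topology Filter Pool.Agent.R790.Mm

/-- `Dom A B`: the mm-space `A` is dominated by `B` (in symbols `A ≺ B`), i.e. some 1-Lipschitz map
from the support of the measure of `B` to the support of the measure of `A` transports the
measures. -/
def Dom (A B : MM) : Prop :=
  ∃ f : B.μ.support → A.μ.support, LipschitzWith 1 f ∧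
    (B.μ.comap Subtype.val).map f = A.μ.comap Subtype.val

theorem dom_of_map {A B : MM} (F : B.X → A.X) (hF : LipschitzWith 1 F) (h : B.μ.map F = A.μ) :
    Dom A B := by
  have hFm : Measurable F := hF.continuous.measurable
  have hs : ∀ y ∈ B.μ.support, F y ∈ A.μ.support := by
    intro y hy
    rw [mem_supp] at hy ⊢
    intro r hr
    refine lt_of_lt_of_le (hy r hr) ?_
    rw [← h, Measure.map_apply hFm Metric.isOpen_ball.measurableSet]
    refine measure_mono fun z hz => ?_
    have h1 := hF.dist_le_mul z y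
    have h2 : dist z y < r := hz
    show dist (F z) (F y) < r
    simp at h1
    linarith
  let f : B.μ.support → A.μ.support := fun y => ⟨F y, hs y y.2⟩
  have hf : LipschitzWith 1 f := fun x y => hF x y
  refine ⟨f, hf, ?_⟩
  have hfm : Measurable f := hf.continuous.measurable
  have h1 : ((B.μ.comap (Subtype.val : B.μ.support → B.X)).map f).map Subtype.val = A.μ := by
    rw [Measure.map_map measurable_subtype_coe hfm]
    have : (Subtype.val ∘ f) = F ∘ (Subtype.val : B.μ.support → B.X) := rfl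
    rw [this, ← Measure.map_map hFm measurable_subtype_coe, supp_map, h]
  have h2 := (MeasurableEmbedding.subtype_coe
    (Measure.isClosed_support (μ := A.μ)).measurableSet).comap_map
      ((B.μ.comap (Subtype.val : B.μ.support → B.X)).map f)
  rw [h1] at h2
  exact h2.symm

/-- a finite family of small disjoint sets of large measure -/
theorem exists_cells (A : MM) {η : ℝ} (hη : 0 < η) : ∃ (N : ℕ) (R : ℕ) (K : Set A.X)
    (D : A.X → ℕ), MeasurableSet K ∧ 1 - η ≤ A.μ.real K ∧ (∀ x ∈ K, D x < N) ∧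
    (∀ x ∈ K, ∀ y ∈ K, D x = D y → dist x y ≤ η) ∧ (∀ x ∈ K, ∀ y ∈ K, dist x y ≤ R) := by
  classical
  obtain ⟨x0⟩ : Nonempty A.X := inferInstance
  let u : ℕ → A.X := TopologicalSpace.denseSeq A.X
  have hu : DenseRange u := TopologicalSpace.denseRange_denseSeq A.X
  let S : ℕ → Set A.X := fun n => ⋃ i ∈ Finset.range n, Metric.closedBall (u i) (η / 2)
  have hS : Monotone S := by
    intro m n h x hx
    simp only [S, mem_iUnion, Finset.mem_range] at hx ⊢
    obtain ⟨i, hi, hx⟩ := hx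
    exact ⟨i, hi.trans_le h, hx⟩
  have hex : ∀ x, ∃ i, x ∈ Metric.closedBall (u i) (η / 2) := by
    intro x
    obtain ⟨i, hi⟩ := hu.exists_dist_lt x (half_pos hη)
    exact ⟨i, hi.le⟩
  have hSU : (⋃ n, S n) = univ := by
    rw [eq_univ_iff_forall]
    intro x
    obtain ⟨i, hi⟩ := hex x
    simp only [S, mem_iUnion, Finset.mem_range]
    exact ⟨i + 1, i, Nat.lt_succ_self i, hi⟩
  have ht := tendsto_measure_iUnion_atTop (μ := A.μ) hS
  rw [hSU, measure_univ] at ht
  have ht2 := (ENNReal.tendsto_toReal ENNReal.one_ne_top).comp ht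
  rw [ENNReal.toReal_one] at ht2
  obtain ⟨N, hN⟩ := (ht2.eventually (lt_mem_nhds (show 1 - η < 1 by linarith))).exists
  have hSm : MeasurableSet (S N) :=
    Finset.measurableSet_biUnion _ fun i _ => Metric.isClosed_closedBall.measurableSet
  have hb : Bornology.IsBounded (S N) :=
    (Bornology.isBounded_biUnion_finset _).2 fun i _ => Metric.isBounded_closedBall
  obtain ⟨C, hC⟩ := Metric.isBounded_iff.1 hb
  refine ⟨N, ⌈C⌉₊, S N, fun x => Nat.find (hex x), hSm, hN.le, ?_, ?_, ?_⟩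
  · intro x hx
    simp only [S, mem_iUnion, Finset.mem_range] at hx
    obtain ⟨i, hi, hx⟩ := hx
    exact (Nat.find_min' (hex x) hx).trans_lt hi
  · intro x _ y _ hxy
    have h1 : dist x (u (Nat.find (hex x))) ≤ η / 2 := Nat.find_spec (hex x)
    have h2 : dist y (u (Nat.find (hex y))) ≤ η / 2 := Nat.find_spec (hex y)
    have hxy' : Nat.find (hex x) = Nat.find (hex y) := hxy
    rw [← hxy'] at h2
    have h3 := dist_triangle_right x y (u (Nat.find (hex x)))
    linarith
  · intro x hx y hy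
    exact (hC hx hy).trans (Nat.le_ceil C)

/-- reduction to a cube: every mm-space `B` near `A` dominates a measure on a fixed cube which is
almost as near -/
theorem exists_cube (A : MM) {η : ℝ} (hη : 0 < η) : ∃ N R : ℕ, ∀ (B : MM) (ρ : ℝ),
    ρ ∈ boxSet A B → ∃ ν : ProbabilityMeasure (Fin N → Icc (0 : ℝ) R),
      Dom (ofMeas _ ν) B ∧ ρ + η ∈ boxSet A (ofMeas _ ν) := by
  classical
  obtain ⟨N, R, K, D, hK, hKm, hDN, hDd, hR⟩ := exists_cells A hη
  refine ⟨N, R, ?_⟩
  rintro B ρ ⟨h0, φ, ψ, I, h1, h2, h3, h4, h5⟩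
  have hR0 : (0 : ℝ) ≤ R := Nat.cast_nonneg R
  let T : Fin N → Set B.X := fun j => ψ '' {s | s ∈ I ∧ φ s ∈ K ∧ D (φ s) = j}
  let F : B.X → (Fin N → Icc (0 : ℝ) R) := fun y j =>
    ⟨min (Metric.infDist y (T j)) R, le_min Metric.infDist_nonneg hR0, min_le_right _ _⟩
  have hF : LipschitzWith 1 F := by
    refine LipschitzWith.of_dist_le_mul fun x y => ?_
    rw [NNReal.coe_one, one_mul]
    refine (dist_pi_le_iff dist_nonneg).2 fun j => ?_
    have e1 := (Metric.lipschitz_infDist_pt (T j)).dist_le_mul x y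
    rw [NNReal.coe_one, one_mul, Real.dist_eq] at e1
    show |min (Metric.infDist x (T j)) R - min (Metric.infDist y (T j)) R| ≤ dist x y
    refine (abs_min_sub_min_le_max _ _ _ _).trans ?_
    rw [sub_self, abs_zero, max_eq_left (abs_nonneg _)]
    exact e1
  have hFm : Measurable F := hF.continuous.measurable
  have hprob : IsProbabilityMeasure (B.μ.map F) := Measure.isProbabilityMeasure_map hFm.aemeasurable
  refine ⟨⟨B.μ.map F, hprob⟩, dom_of_map (A := ofMeas _ ⟨B.μ.map F, hprob⟩) F hF rfl, ?_⟩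
  refine ⟨by linarith, φ, F ∘ ψ, I ∩ φ ⁻¹' K, h1, ⟨hFm.comp h2.1, ?_⟩, h3.inter (h1.1 hK), ?_, ?_⟩
  · show leb.map (F ∘ ψ) = B.μ.map F
    rw [← Measure.map_map hFm h2.1, h2.2]
  · rw [leb_real_iff] at h4 ⊢
    have e1 : 1 - η ≤ leb.real (φ ⁻¹' K) := by rwa [map_real h1.1 h1.2 hK]
    exact real_inter leb h3 (h1.1 hK) h4 e1
  · rintro s ⟨hs1, hs2⟩ t ⟨ht1, ht2⟩
    have e1 := abs_le.1 (h5 s hs1 t ht1)
    have e2 : dist (F (ψ s)) (F (ψ t)) ≤ dist (ψ s) (ψ t) := by
      have := hF.dist_le_mul (ψ s) (ψ t)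
      rwa [NNReal.coe_one, one_mul] at this
    have e3 : dist (φ s) (φ t) - η - ρ ≤ dist (F (ψ s)) (F (ψ t)) := by
      have ht2' : φ t ∈ K := ht2
      have hs2' : φ s ∈ K := hs2
      let j : Fin N := ⟨D (φ t), hDN _ ht2'⟩
      have hj : ψ t ∈ T j := ⟨t, ⟨ht1, ht2', rfl⟩, rfl⟩
      have f1 : ((F (ψ t) j : Icc (0 : ℝ) R) : ℝ) = 0 := by
        show min (Metric.infDist (ψ t) (T j)) (R : ℝ) = 0
        rw [Metric.infDist_zero_of_mem hj]
        exact min_eq_left hR0
      have f2 : dist (φ s) (φ t) - η - ρ ≤ ((F (ψ s) j : Icc (0 : ℝ) R) : ℝ) := by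
        refine le_min ?_ ?_
        · refine (Metric.le_infDist ⟨_, hj⟩).2 ?_
          rintro y ⟨u, ⟨hu1, hu2, hu3⟩, rfl⟩
          have g1 := abs_le.1 (h5 s hs1 u hu1)
          have g2 := hDd _ ht2' _ hu2 (by rw [hu3])
          have g3 := dist_triangle (φ s) (φ u) (φ t)
          rw [dist_comm (φ u)] at g3
          linarith [g1.2]
        · have := hR _ hs2' _ ht2'
          linarith
      have f3 : dist (F (ψ s) j) (F (ψ t) j) ≤ dist (F (ψ s)) (F (ψ t)) := dist_le_pi_dist _ _ j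
      have f4 : dist (F (ψ s) j) (F (ψ t) j) =
          |((F (ψ s) j : Icc (0 : ℝ) R) : ℝ) - ((F (ψ t) j : Icc (0 : ℝ) R) : ℝ)| := rfl
      rw [f1, sub_zero] at f4
      have f5 := le_abs_self ((F (ψ s) j : Icc (0 : ℝ) R) : ℝ)
      linarith
    show |dist (φ s) (φ t) - dist (F (ψ s)) (F (ψ t))| ≤ ρ + η
    rw [abs_le]
    constructor <;> linarith [e1.1, e1.2]

end Pool.Agent.R735.Pyr
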