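import Pool.Agent.R735.Pyr.Defs

/-! The space of pyramids is embedded in the hyperspace with the Fell topology and with the Wijsman
topology. -/

set_option autoImplicit false

namespace Pool.Agent.R735.Pyr

open MeasureTheory Set Topology Filter Pool.Agent.R790.Mm

theorem boxTo_eq (x : XX) (F : Set XX) : boxTo x F = Metric.infEDist x F := by
  unfold boxTo Metric.infEDist
  refine iInf_congr fun y => iInf_congr fun _ => ?_
  rw [edist_dist]
  rfl

theorem boxTo_lt {x : XX} {F : Set XX} {r : ENNReal} : boxTo x F < r ↔ ∃ y ∈ F, edist x y < r := by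
  rw [boxTo_eq, Metric.infEDist_lt_iff]

theorem exists_compact (x : XX) {η : ℝ} (hη : 0 < η) : ∃ K : Set XX, IsCompact K ∧
    ∀ P : Pyr, ∀ y ∈ P.1, ∃ z ∈ P.1, z ∈ K ∧ dist x z ≤ dist x y + η := by
  induction x using Quotient.inductionOn with
  | _ A =>
  obtain ⟨N, R, h⟩ := exists_cube A (half_pos hη)
  refine ⟨_, isCompact_ofMeas (Fin N → Icc (0 : ℝ) R), fun P y hy => ?_⟩
  induction y using Quotient.inductionOn with
  | _ B =>
  obtain ⟨ρ, hρ, hρ2⟩ := exists_lt_box (A := A) (B := B) (ε := box A B + η / 2) (by linarith)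
  obtain ⟨ν, h1, h2⟩ := h B ρ hρ
  refine ⟨cls (ofMeas _ ν), P.2.down _ _ ⟨_, _, rfl, rfl, h1⟩ hy, ⟨ν, rfl⟩, ?_⟩
  have h3 := box_le h2
  show box A (ofMeas _ ν) ≤ box A B + η
  linarith

variable {P : ℕ → Pyr} {Q : Pyr}

theorem weak_hit (h : WeakConv P Q) {U : Set XX} (hU : IsOpen U) (hQ : (Q.1 ∩ U).Nonempty) :
    ∀ᶠ n in atTop, ((P n).1 ∩ U).Nonempty := by
  obtain ⟨q, hq, hqU⟩ := hQ
  obtain ⟨ε, hε, hε2⟩ := EMetric.isOpen_iff.1 hU q hqU
  filter_upwards [(h.1 q hq).eventually (gt_mem_nhds hε)] with n hn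
  obtain ⟨y, hy, hy2⟩ := boxTo_lt.1 hn
  exact ⟨y, hy, hε2 (by rw [Metric.mem_eball, edist_comm]; exact hy2)⟩

theorem weak_miss (h : WeakConv P Q) {K : Set XX} (hK : IsCompact K) (hQ : Q.1 ∩ K = ∅) :
    ∀ᶠ n in atTop, (P n).1 ∩ K = ∅ := by
  refine hK.induction_on (p := fun S => ∀ᶠ n in atTop, (P n).1 ∩ S = ∅) ?_ ?_ ?_ ?_
  · exact Eventually.of_forall fun n => inter_empty _
  · intro S T hST hT
    filter_upwards [hT] with n hn
    exact subset_empty_iff.1 ((inter_subset_inter_right _ hST).trans hn.subset)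
  · intro S T hS hT
    filter_upwards [hS, hT] with n h1 h2
    rw [inter_union_distrib_left, h1, h2, union_empty]
  · intro z hz
    have hzQ : z ∉ Q.1 := fun hz2 => by
      have : z ∈ Q.1 ∩ K := ⟨hz2, hz⟩
      rw [hQ] at this
      exact this
    obtain ⟨δ, hδ, hδ2⟩ := exists_between (h.2 z hzQ)
    refine ⟨Metric.eball z δ, mem_nhdsWithin_of_mem_nhds (Metric.eball_mem_nhds z hδ), ?_⟩
    filter_upwards [eventually_lt_of_lt_liminf hδ2] with n hn
    rw [eq_empty_iff_forall_notMem]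
    rintro y ⟨hy, hy2⟩
    rw [Metric.mem_eball, edist_comm] at hy2
    exact absurd (boxTo_lt.2 ⟨y, hy, hy2⟩) (not_lt.2 hn.le)

theorem weak_dist (h : WeakConv P Q) (x : XX) :
    Tendsto (fun n => boxTo x (P n).1) atTop (𝓝 (boxTo x Q.1)) := by
  refine tendsto_order.2 ⟨fun a ha => ?_, fun a ha => ?_⟩
  · obtain ⟨q, hq⟩ := Q.2.nonempty
    have hfin : boxTo x Q.1 ≠ ⊤ := by
      refine ne_top_of_lt (b := ⊤) (boxTo_lt.2 ⟨q, hq, edist_lt_top x q⟩)
    have hafin : a ≠ ⊤ := ne_top_of_lt ha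
    set α := a.toReal with hα
    set β := (boxTo x Q.1).toReal with hβ
    have hαβ : α < β := (ENNReal.toReal_lt_toReal hafin hfin).2 ha
    have hβQ : ∀ y ∈ Q.1, β ≤ dist x y := by
      intro y hy
      have h1 : boxTo x Q.1 ≤ edist x y := by
        rw [boxTo_eq]; exact Metric.infEDist_le_edist_of_mem hy
      rw [edist_dist] at h1
      exact ENNReal.toReal_le_of_le_ofReal dist_nonneg h1
    have hα0 : 0 ≤ α := ENNReal.toReal_nonneg
    obtain ⟨K, hK, hK2⟩ := exists_compact x (η := (β - α) / 4) (by linarith)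
    have hK' : IsCompact (K ∩ Metric.closedBall x ((α + β) / 2)) :=
      hK.inter_right Metric.isClosed_closedBall
    have hQK : Q.1 ∩ (K ∩ Metric.closedBall x ((α + β) / 2)) = ∅ := by
      rw [eq_empty_iff_forall_notMem]
      rintro y ⟨hy, -, hy2⟩
      have h1 := hβQ y hy
      rw [Metric.mem_closedBall, dist_comm] at hy2
      linarith
    filter_upwards [weak_miss h hK' hQK] with n hn
    by_contra hc
    rw [not_lt] at hc
    have h1 : boxTo x (P n).1 < ENNReal.ofReal (α + (β - α) / 4) := by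
      refine hc.trans_lt ?_
      rw [← ENNReal.ofReal_toReal hafin]
      exact (ENNReal.ofReal_lt_ofReal_iff (by linarith)).2 (by linarith)
    obtain ⟨y, hy, hy2⟩ := boxTo_lt.1 h1
    rw [edist_dist, ENNReal.ofReal_lt_ofReal_iff (by linarith)] at hy2
    obtain ⟨z, hz, hz2, hz3⟩ := hK2 (P n) y hy
    have : z ∈ (P n).1 ∩ (K ∩ Metric.closedBall x ((α + β) / 2)) := by
      refine ⟨hz, hz2, ?_⟩
      rw [Metric.mem_closedBall, dist_comm]
      linarith
    rw [hn] at this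
    exact this
  · obtain ⟨q, hq, hq2⟩ := boxTo_lt.1 ha
    have hU : IsOpen (Metric.eball x a) := Metric.isOpen_eball
    filter_upwards [weak_hit h hU ⟨q, hq, by rw [Metric.mem_eball, edist_comm]; exact hq2⟩]
      with n hn
    obtain ⟨y, hy, hy2⟩ := hn
    rw [Metric.mem_eball, edist_comm] at hy2
    exact boxTo_lt.2 ⟨y, hy, hy2⟩

theorem incl_injective : Function.Injective incl := by
  intro P Q h
  have h2 : (incl P).1 = (incl Q).1 := by rw [h]
  exact Subtype.ext h2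

/-- a continuous injection from a compact space, whose image is separated, is an embedding -/
theorem emb_of_sep {X Y : Type*} [TopologicalSpace X] [CompactSpace X] [TopologicalSpace Y]
    (f : X → Y) (hf : Continuous f) (hi : Function.Injective f)
    (h : ∀ x y, x ≠ y → ∃ U V : Set Y, IsOpen U ∧ IsOpen V ∧ f x ∈ U ∧ f y ∈ V ∧
      ∀ z, f z ∈ U → f z ∉ V) : IsEmbedding f := by
  have hT : T2Space (range f) := by
    refine ⟨?_⟩
    rintro ⟨_, x, rfl⟩ ⟨_, y, rfl⟩ hxy
    obtain ⟨U, V, hU, hV, h1, h2, h3⟩ := h x y fun hxy2 => hxy (by rw [hxy2])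
    refine ⟨Subtype.val ⁻¹' U, Subtype.val ⁻¹' V, hU.preimage continuous_subtype_val,
      hV.preimage continuous_subtype_val, h1, h2, ?_⟩
    rw [disjoint_iff_inter_eq_empty, eq_empty_iff_forall_notMem]
    rintro ⟨_, z, rfl⟩ ⟨h4, h5⟩
    exact h3 z h4 h5
  have h1 : Continuous (rangeFactorization f) := hf.subtype_mk _
  have h2 : Function.Injective (rangeFactorization f) := fun x y hxy =>
    hi (congrArg Subtype.val hxy)
  exact IsEmbedding.subtypeVal.comp (h1.isClosedEmbedding h2).isEmbedding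

/-- two different pyramids are separated by Fell open sets -/
theorem fell_sep (P Q : Pyr) (h : P ≠ Q) : ∃ U V : Set ClosedSets, IsOpen[fell] U ∧
    IsOpen[fell] V ∧ incl P ∈ U ∧ incl Q ∈ V ∧ ∀ Z, incl Z ∈ U → incl Z ∉ V := by
  have key : ∀ P Q : Pyr, ∀ x ∈ P.1, x ∉ Q.1 → ∃ U V : Set ClosedSets, IsOpen[fell] U ∧
      IsOpen[fell] V ∧ incl P ∈ U ∧ incl Q ∈ V ∧ ∀ Z, incl Z ∈ U → incl Z ∉ V := by
    intro P Q x hxP hxQ
    obtain ⟨δ, hδ, hδ2⟩ := Metric.isOpen_iff.1 Q.2.closed.isOpen_compl x hxQ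
    obtain ⟨K, hK, hK2⟩ := exists_compact x (η := δ / 4) (by linarith)
    have hK' : IsCompact (K ∩ Metric.closedBall x (δ / 2)) :=
      hK.inter_right Metric.isClosed_closedBall
    refine ⟨{F | (F.1 ∩ Metric.ball x (δ / 4)).Nonempty},
      {F | F.1 ∩ (K ∩ Metric.closedBall x (δ / 2)) = ∅}, ?_, ?_, ?_, ?_, ?_⟩
    · exact TopologicalSpace.isOpen_generateFrom_of_mem (Or.inl ⟨_, Metric.isOpen_ball, rfl⟩)
    · exact TopologicalSpace.isOpen_generateFrom_of_mem (Or.inr ⟨_, hK', rfl⟩)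
    · exact ⟨x, hxP, Metric.mem_ball_self (by linarith)⟩
    · show Q.1 ∩ (K ∩ Metric.closedBall x (δ / 2)) = ∅
      rw [eq_empty_iff_forall_notMem]
      rintro y ⟨hy, -, hy2⟩
      exact hδ2 (Metric.closedBall_subset_ball (by linarith) hy2) hy
    · rintro Z ⟨y, hy, hy2⟩ hV
      obtain ⟨z, hz, hz2, hz3⟩ := hK2 Z y hy
      have hV' : Z.1 ∩ (K ∩ Metric.closedBall x (δ / 2)) = ∅ := hV
      have : z ∈ Z.1 ∩ (K ∩ Metric.closedBall x (δ / 2)) := by
        refine ⟨hz, hz2, ?_⟩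
        rw [Metric.mem_ball, dist_comm] at hy2
        rw [Metric.mem_closedBall, dist_comm]
        linarith
      rw [hV'] at this
      exact this
  by_cases hPQ : P.1 ⊆ Q.1
  · have hQP : ¬ Q.1 ⊆ P.1 := fun hQP => h (Subtype.ext (Subset.antisymm hPQ hQP))
    obtain ⟨x, hx, hx2⟩ := not_subset.1 hQP
    obtain ⟨U, V, h1, h2, h3, h4, h5⟩ := key Q P x hx hx2
    exact ⟨V, U, h2, h1, h4, h3, fun Z h6 h7 => h5 Z h7 h6⟩
  · obtain ⟨x, hx, hx2⟩ := not_subset.1 hPQ
    exact key P Q x hx hx2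

/-- two different closed sets are separated by Wijsman open sets -/
theorem wijsman_sep (P Q : Pyr) (h : P ≠ Q) : ∃ U V : Set ClosedSets, IsOpen[wijsman] U ∧
    IsOpen[wijsman] V ∧ incl P ∈ U ∧ incl Q ∈ V ∧ ∀ Z, incl Z ∈ U → incl Z ∉ V := by
  have hx : ∃ x, boxTo x P.1 ≠ boxTo x Q.1 := by
    by_contra hc
    push Not at hc
    apply h
    refine Subtype.ext (Set.ext fun x => ?_)
    rw [Metric.mem_iff_infEDist_zero_of_closed P.2.closed,
      Metric.mem_iff_infEDist_zero_of_closed Q.2.closed, ← boxTo_eq, ← boxTo_eq, hc x]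
  obtain ⟨x, hx⟩ := hx
  obtain ⟨u, v, hu, hv, h1, h2, h3⟩ := t2_separation hx
  have hcont : @Continuous ClosedSets ENNReal wijsman _ (fun F : ClosedSets => boxTo x F.1) := by
    rw [continuous_iff_le_induced]
    exact iInf_le _ x
  refine ⟨(fun F : ClosedSets => boxTo x F.1) ⁻¹' u, (fun F : ClosedSets => boxTo x F.1) ⁻¹' v,
    @Continuous.isOpen_preimage _ _ wijsman _ _ hcont _ hu,
    @Continuous.isOpen_preimage _ _ wijsman _ _ hcont _ hv, h1, h2, fun Z h4 h5 => ?_⟩
  exact disjoint_left.1 h3 h4 h5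

theorem fell_emb (t : TopologicalSpace Pyr) (ht : IsWeakTopology t) :
    @IsEmbedding Pyr ClosedSets t fell incl := by
  let _ := t
  let _ := fell
  have := ht.compact
  have := ht.metrizable
  refine emb_of_sep incl ?_ incl_injective fell_sep
  refine SeqContinuous.continuous fun P Q hPQ => ?_
  have hw := (ht.conv P Q).1 hPQ
  refine TopologicalSpace.tendsto_nhds_generateFrom_iff.2 ?_
  rintro s (⟨U, hU, rfl⟩ | ⟨K, hK, rfl⟩) hs
  · exact weak_hit hw hU hs
  · exact weak_miss hw hK hs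

theorem wijsman_emb (t : TopologicalSpace Pyr) (ht : IsWeakTopology t) :
    @IsEmbedding Pyr ClosedSets t wijsman incl := by
  let _ := t
  let _ := wijsman
  have := ht.compact
  have := ht.metrizable
  refine emb_of_sep incl ?_ incl_injective wijsman_sep
  refine continuous_iInf_rng.2 fun x => continuous_induced_rng.2 ?_
  refine SeqContinuous.continuous fun P Q hPQ => ?_
  exact weak_dist ((ht.conv P Q).1 hPQ) x

end Pool.Agent.R735.Pyr
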